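import Pool.Agent.MWLE.StmtsB

set_option autoImplicit false

/-!
# Squad MWLE, row AIO (helper46): all light end identities give `I1`
-/

namespace Pool.Agent.MWLE.H46

open Pool.Agent.Helper14_MV Pool.Agent.Helper2_MV
open Pool.Agent.MWK (pre Gw)
open Pool.Agent.MWF (Ap gaml)
open Pool.Agent.MWGN (nn Gz E0 P0 A0 Tau gh)
open Pool.Agent.MWLE

variable {β : FIC}

/-- doubling behind an occurrence -/
theorem dblc (h : Gz β) {A : List ℕ} {c : ℕ} (hc : c ∈ A) (B : List ℕ) :
    RR β (A ++ c :: B) (A ++ c :: c :: B) := by
  obtain ⟨s, t, rfl⟩ := List.append_of_mem hc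
  have h1 := h.gw.gm.sub (fun i => if i = 0 then [c] else t)
  have h2 : RR β (c :: (t ++ [c])) (c :: (t ++ [c, c])) := by simpa using h1
  have h3 := ((RR.refl s).append h2).append (RR.refl B)
  simpa [List.append_assoc] using h3

theorem dq_cons (Q : ℕ → Bool) (c : ℕ) (v : List ℕ) :
    dq Q (c :: v) = (if Q c then [c] else [c, c]) ++ dq Q v := rfl

theorem dq_app (Q : ℕ → Bool) (u v : List ℕ) : dq Q (u ++ v) = dq Q u ++ dq Q v := by
  unfold dq
  rw [List.flatMap_append]

theorem dq_count (Q : ℕ → Bool) (v : List ℕ) (a : ℕ) : v.count a ≤ (dq Q v).count a := by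
  induction v with
  | nil => simp
  | cons c v ih =>
    rw [dq_cons, List.count_append, List.count_cons]
    have h1 : (if (c == a) = true then 1 else 0) ≤
        (if Q c = true then [c] else [c, c]).count a := by
      by_cases hca : c = a
      · subst hca
        by_cases hq : Q c = true
        · rw [if_pos hq]; simp
        · rw [if_neg hq]; simp
      · simp [hca]
    omega

theorem mem_dq {Q : ℕ → Bool} {v : List ℕ} {c : ℕ} (h : c ∈ v) : c ∈ dq Q v := by
  have h1 := dq_count Q v c
  have h2 := List.count_pos_iff.2 h
  exact List.count_pos_iff.1 (by omega)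

/-- the induction assumption -/
def IA (β : FIC) (N : ℕ) : Prop := ∀ (p B q : List ℕ) (x : ℕ), B.length < N →
  (∀ a ∈ B, 2 ≤ (p ++ x :: (B ++ x :: q)).count a) →
    RR β (p ++ x :: (B ++ x :: q)) (p ++ x :: x :: (B ++ x :: q))

/-- step (i) -/
theorem step1 (h : Gz β) (Q : ℕ → Bool) (P B R : List ℕ) (hIA : IA β B.length)
    (hmul : ∀ a ∈ B, 2 ≤ (P ++ (B ++ R)).count a)
    (hQ : ∀ c ∈ B, Q c = false → c ∈ P ∨ 2 ≤ B.count c) :
    RR β (P ++ (B ++ R)) (P ++ (dq Q B ++ R)) := by
  have key : ∀ B'' B' : List ℕ, B = B' ++ B'' →
      RR β (P ++ (dq Q B' ++ (B'' ++ R))) (P ++ (dq Q B ++ R)) := by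
    intro B''
    induction B'' with
    | nil =>
      intro B' hB
      rw [List.append_nil] at hB
      rw [hB, List.nil_append]
      exact RR.refl _
    | cons c B3 ih =>
      intro B' hB
      have hih := ih (B' ++ [c]) (by rw [hB, List.append_assoc]; rfl)
      suffices hst : RR β (P ++ (dq Q B' ++ (c :: B3 ++ R))) (P ++ (dq Q (B' ++ [c]) ++ (B3 ++ R))) from
        β.trans hst hih
      rw [dq_app]
      have h1 : dq Q [c] = if Q c then [c] else [c, c] := by rw [dq_cons]; simp [dq]
      rw [h1]
      by_cases hq : Q c = true
      · rw [if_pos hq]
        simp only [List.append_assoc, List.cons_append]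
        exact RR.refl _
      · rw [if_neg hq]
        have hqf : Q c = false := by simpa using hq
        have hcB : c ∈ B := by rw [hB]; simp
        have goal2 : RR β ((P ++ dq Q B') ++ c :: (B3 ++ R)) ((P ++ dq Q B') ++ c :: c :: (B3 ++ R)) := by
          by_cases hcP : c ∈ P ++ dq Q B'
          · exact dblc h hcP _
          · have hcP' : c ∉ P := fun h' => hcP (List.mem_append_left _ h')
            have hcB' : c ∉ B' := fun h' => hcP (List.mem_append_right _ (mem_dq h'))
            have h2 : 2 ≤ B.count c := by
              rcases hQ c hcB hqf with h' | h'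
              · exact absurd h' hcP'
              · exact h'
            have h3 : c ∈ B3 := by
              rw [hB, List.count_append, List.count_eq_zero_of_not_mem hcB',
                List.count_cons_self] at h2
              exact List.count_pos_iff.1 (by omega)
            obtain ⟨u, u', rfl⟩ := List.append_of_mem h3
            have h4 := hIA (P ++ dq Q B') u (u' ++ R) c (by
              rw [hB]; simp only [List.length_append, List.length_cons]; omega) (by
              intro a ha
              have h5 := hmul a (by rw [hB]; simp [ha])
              rw [hB] at h5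
              have h6 := dq_count Q B' a
              simp only [List.count_append, List.count_cons] at h5 ⊢
              omega)
            simpa [List.append_assoc] using h4
        simpa [List.append_assoc] using goal2
  have := key B [] rfl
  simpa [dq] using this

theorem aio (hbts : BtsStmt) : AioStmt := by
  intro β h hLE
  have hBt : ∀ n, BtS β n := fun n => hbts β h n (fun k _ τ hτ => hLE k τ hτ)
  have main : ∀ N : ℕ, IA β N := by
    intro N
    induction N using Nat.strong_induction_on with
    | _ N ihN =>
      intro p B q x hBN hmul
      by_cases hxp : x ∈ p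
      · exact dblc h hxp _
      by_cases hxB : x ∈ B
      · obtain ⟨B1, B2, rfl⟩ := List.append_of_mem hxB
        have h1 := ihN (B1 ++ x :: B2).length hBN p B1 (B2 ++ x :: q) x (by
          simp only [List.length_append, List.length_cons]; omega) (by
          intro a ha
          have h5 := hmul a (by simp [ha])
          simp only [List.count_append, List.count_cons] at h5 ⊢
          omega)
        simpa [List.append_assoc] using h1
      · -- the main case
        let Q : ℕ → Bool := fun c => decide (B.count c = 1 ∧ c ∉ p)
        have hQt : ∀ c, Q c = true ↔ (B.count c = 1 ∧ c ∉ p) := fun c => by simp [Q]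
        have hQ : ∀ (P : List ℕ), (∀ a ∈ p, a ∈ P) →
            ∀ c ∈ B, Q c = false → c ∈ P ∨ 2 ≤ B.count c := by
          intro P hP c hc hq
          by_cases hcp : c ∈ p
          · exact Or.inl (hP c hcp)
          · right
            have h1 : 0 < B.count c := List.count_pos_iff.2 hc
            by_contra hlt
            have h2 : Q c = true := (hQt c).2 ⟨by omega, hcp⟩
            rw [h2] at hq
            exact absurd hq (by decide)
        have hI : IA β B.length := ihN _ hBN
        have s1 := step1 h Q (p ++ [x]) B (x :: q) hI (by
          intro a ha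
          have h5 := hmul a ha
          simp only [List.count_append, List.count_cons, List.count_nil] at h5 ⊢
          omega) (hQ _ (fun a ha => List.mem_append_left _ ha))
        have s2 := step1 h Q (p ++ [x, x]) B (x :: q) hI (by
          intro a ha
          have h5 := hmul a ha
          simp only [List.count_append, List.count_cons, List.count_nil] at h5 ⊢
          omega) (hQ _ (fun a ha => List.mem_append_left _ ha))
        have s3 := hBt (B.filter Q).length Q p B q x le_rfl (by
          rw [List.nodup_iff_count_le_one]
          intro a
          by_cases ha : Q a = true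
          · rw [List.count_filter ha]
            exact le_of_eq ((hQt a).1 ha).1
          · rw [List.count_eq_zero_of_not_mem (fun h' => ha (List.mem_filter.1 h').2)]
            omega) (by
          intro c hc hqc
          obtain ⟨h1, h2⟩ := (hQt c).1 hqc
          have h3 := hmul c hc
          have hcx : ¬ (x = c) := fun h' => hxB (h' ▸ hc)
          simp only [List.count_append, List.count_cons] at h3
          rw [List.count_eq_zero_of_not_mem h2, h1] at h3
          simp only [beq_iff_eq, hcx, if_false] at h3
          exact List.count_pos_iff.1 (by omega))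
        have s1' : RR β (p ++ x :: (B ++ x :: q)) (p ++ x :: (dq Q B ++ x :: q)) := by
          simpa [List.append_assoc] using s1
        have s2' : RR β (p ++ x :: x :: (B ++ x :: q)) (p ++ x :: x :: (dq Q B ++ x :: q)) := by
          simpa [List.append_assoc] using s2
        exact β.trans s1' (β.trans s3 s2'.symm)
  intro p c q x hmul
  exact main (c.length + 1) p c q x (Nat.lt_succ_self _) hmul

end Pool.Agent.MWLE.H46
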