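import Pool.Agent.MWLE.StmtsB
import Pool.Agent.MWGN.StmtsC
import Pool.Agent.Helper46_MWLE.AIO

set_option autoImplicit false

/-!
# Squad MWLE, row FSF (helper46): fill in the special form
-/

namespace Pool.Agent.MWLE.H46

open Pool.Agent.Helper14_MV Pool.Agent.Helper2_MV
open Pool.Agent.MWK (pre Gw)
open Pool.Agent.MWF (Ap gaml dbl)
open Pool.Agent.MWGN (nn Gz E0 P0 A0 Tau gh bs ws)
open Pool.Agent.MWLE

variable {β : FIC}

theorem dbl_app (u v : List ℕ) : dbl (u ++ v) = dbl u ++ dbl v := by
  unfold dbl
  rw [List.flatMap_append]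

/-- congruence of images -/
theorem fm_congr (l : List ℕ) (f g : ℕ → List ℕ) (h : ∀ i ∈ l, RR β (f i) (g i)) :
    RR β (l.flatMap f) (l.flatMap g) := by
  induction l with
  | nil => exact RR.refl _
  | cons a l ih =>
    rw [List.flatMap_cons, List.flatMap_cons]
    exact (h a (by simp)).append (ih (fun i hi => h i (by simp [hi])))

/-- lights and doubled contents -/
theorem dec (Q : ℕ → Bool) (v : List ℕ) : ∃ (k : ℕ) (D0 : List ℕ) (z : ℕ → ℕ) (D : ℕ → List ℕ),
    dq Q v = dbl D0 ++ (List.range k).flatMap (fun i => z i :: dbl (D i)) ∧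
    v.filter Q = (List.range k).map z := by
  induction v with
  | nil => exact ⟨0, [], fun _ => 0, fun _ => [], rfl, rfl⟩
  | cons c v ih =>
    obtain ⟨k, D0, z, D, h1, h2⟩ := ih
    by_cases hq : Q c = true
    · refine ⟨k + 1, [], fun i => Nat.casesOn i c z, fun i => Nat.casesOn i D0 D, ?_, ?_⟩
      · rw [dq_cons, if_pos hq, h1, List.range_succ_eq_map, List.flatMap_cons, List.flatMap_map]
        simp [dbl]
      · rw [List.filter_cons_of_pos hq, h2, List.range_succ_eq_map, List.map_cons, List.map_map]
        rfl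
    · refine ⟨k, c :: D0, z, D, ?_, ?_⟩
      · rw [dq_cons, if_neg hq, h1]; rfl
      · rw [List.filter_cons_of_neg hq, h2]

theorem cswap (h : Gz β) (hddc : DdcStmt) {A : List ℕ} {c : ℕ} (hc : c ∈ A) (u B : List ℕ) :
    RR β (A ++ (dbl u ++ c :: B)) (A ++ c :: (dbl u ++ B)) := by
  have h1 : RR β (A ++ (dbl u ++ c :: B)) (A ++ (dbl u ++ c :: c :: B)) := by
    have := dblc h (A := A ++ dbl u) (List.mem_append_left _ hc) B
    simpa [List.append_assoc] using this
  have h2' : RR β (A ++ (dbl u ++ c :: c :: B)) (A ++ c :: c :: (dbl u ++ B)) :=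
    (hddc β h u [c] A B).1
  have h3 := (dblc h hc (dbl u ++ B)).symm
  exact β.trans h1 (β.trans h2' h3)

/-- the lights of both parts -/
def zf (k : ℕ) (z z' : ℕ → ℕ) : ℕ → ℕ := fun i => if i < k then z i else z' (i - k)

/-- the contents of both parts -/
def cf (k' : ℕ) (D D' : ℕ → List ℕ) (D0' : List ℕ) : ℕ → List ℕ := fun i =>
  if i < k' then dbl (D i) else if i = k' then dbl (D k' ++ D0') else dbl (D' (i - (k' + 1)))

theorem bs_eq (k' l' : ℕ) (z z' : ℕ → ℕ) (D D' : ℕ → List ℕ) (D0' : List ℕ) (c : ℕ) (b : Bool) :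
    bs (fun i => [zf (k' + 1) z z' i]) (cf k' D D' D0') [c]
      (fun i => decide (b = true ∧ i = k')) (k' + 1 + l') =
    (List.range k').flatMap (fun i => [z i] ++ (dbl (D i) ++ dbl (D i))) ++
      (([z k'] ++ (dbl (D k' ++ D0') ++ (dbl (D k' ++ D0') ++ (if b then [c, c] else [])))) ++
        (List.range l').flatMap (fun i => [z' i] ++ (dbl (D' i) ++ dbl (D' i)))) := by
  unfold bs
  rw [List.range_add, List.flatMap_append, List.range_succ, List.flatMap_append,
    List.flatMap_singleton, List.flatMap_map, List.append_assoc]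
  have e1 : (List.range k').flatMap (fun i => [zf (k' + 1) z z' i] ++ (cf k' D D' D0' i ++
      (cf k' D D' D0' i ++ if (fun i => decide (b = true ∧ i = k')) i = true then [c] ++ [c] else []))) =
      (List.range k').flatMap (fun i => [z i] ++ (dbl (D i) ++ dbl (D i))) := by
    apply List.flatMap_congr
    intro i hi
    have hi' : i < k' := List.mem_range.1 hi
    have h1 : zf (k' + 1) z z' i = z i := by unfold zf; rw [if_pos (by omega)]
    have h2 : cf k' D D' D0' i = dbl (D i) := by unfold cf; rw [if_pos hi']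
    rw [h1, h2]
    simp [Nat.ne_of_lt hi']
  have e2 : (List.range l').flatMap (fun i => [zf (k' + 1) z z' (k' + 1 + i)] ++
      (cf k' D D' D0' (k' + 1 + i) ++ (cf k' D D' D0' (k' + 1 + i) ++
        if (fun i => decide (b = true ∧ i = k')) (k' + 1 + i) = true then [c] ++ [c] else []))) =
      (List.range l').flatMap (fun i => [z' i] ++ (dbl (D' i) ++ dbl (D' i))) := by
    apply List.flatMap_congr
    intro i hi
    have h1 : zf (k' + 1) z z' (k' + 1 + i) = z' i := by
      unfold zf
      rw [if_neg (by omega)]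
      congr 1
      omega
    have h2 : cf k' D D' D0' (k' + 1 + i) = dbl (D' i) := by
      unfold cf
      rw [if_neg (by omega), if_neg (by omega)]
      congr 2
      omega
    have h3 : ¬ (k' + 1 + i = k') := by omega
    rw [h1, h2]
    simp [h3]
  have e3 : [zf (k' + 1) z z' k'] ++ (cf k' D D' D0' k' ++
      (cf k' D D' D0' k' ++ if (fun i => decide (b = true ∧ i = k')) k' = true then [c] ++ [c] else [])) =
      [z k'] ++ (dbl (D k' ++ D0') ++ (dbl (D k' ++ D0') ++ (if b then [c, c] else []))) := by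
    have h1 : zf (k' + 1) z z' k' = z k' := by unfold zf; rw [if_pos (by omega)]
    have h2 : cf k' D D' D0' k' = dbl (D k' ++ D0') := by unfold cf; rw [if_neg (by omega), if_pos rfl]
    rw [h1, h2]
    cases b <;> simp
  rw [e1, e3]
  congr 2

/-- normal form -/
theorem nform (h : Gz β) (hddc : DdcStmt) (p q D0 D0' : List ℕ) (c k' l' : ℕ) (z z' : ℕ → ℕ)
    (D D' : ℕ → List ℕ) (τ : List ℕ) (S : ℕ → List ℕ) (R : List ℕ)
    (hq : q = τ.flatMap (fun i => S i ++ [zf (k' + 1) z z' i]) ++ R) (b : Bool) :
    RR β (p ++ c :: c :: ((dbl D0 ++ (List.range (k' + 1)).flatMap (fun i => z i :: dbl (D i))) ++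
      ((if b then [c] else []) ++ ((dbl D0' ++ (List.range (l' + 1)).flatMap
        (fun i => z' i :: dbl (D' i))) ++ c :: q))))
      ((p ++ dbl D0) ++ (ws [c] (dbl (D' l')) S (fun i => [zf (k' + 1) z z' i]) (cf k' D D' D0')
        (fun i => decide (b = true ∧ i = k')) τ (k' + 1 + l') ++ R)) := by
  set U := (List.range k').flatMap (fun i => z i :: dbl (D i)) with hU
  set U' := (List.range l').flatMap (fun i => z' i :: dbl (D' i)) with hU'
  set U2 := (List.range k').flatMap (fun i => [z i] ++ (dbl (D i) ++ dbl (D i))) with hU2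
  set U2' := (List.range l').flatMap (fun i => [z' i] ++ (dbl (D' i) ++ dbl (D' i))) with hU2'
  set e : List ℕ := if b then [c] else [] with he
  set ee : List ℕ := if b then [c, c] else [] with hee
  have w0 : p ++ c :: c :: ((dbl D0 ++ (List.range (k' + 1)).flatMap (fun i => z i :: dbl (D i))) ++
      (e ++ ((dbl D0' ++ (List.range (l' + 1)).flatMap (fun i => z' i :: dbl (D' i))) ++ c :: q))) =
      p ++ ([c] ++ ([c] ++ (dbl D0 ++ (U ++ (z k' :: (dbl (D k') ++ (e ++ (dbl D0' ++
        (U' ++ (z' l' :: (dbl (D' l') ++ c :: q))))))))))) := by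
    rw [List.range_succ, List.flatMap_append, List.flatMap_singleton, List.range_succ,
      List.flatMap_append, List.flatMap_singleton]
    simp only [List.append_assoc, List.cons_append, List.nil_append, hU, hU']
  rw [w0]
  -- step 1
  have s1 := ((hddc β h D0 [c] p (U ++ (z k' :: (dbl (D k') ++ (e ++ (dbl D0' ++
        (U' ++ (z' l' :: (dbl (D' l') ++ c :: q))))))))).1).symm
  -- step 2
  have hc2 : c ∈ p ++ (dbl D0 ++ ([c] ++ ([c] ++ (U ++ (z k' :: dbl (D k')))))) := by simp
  have s2 : RR β ((p ++ (dbl D0 ++ ([c] ++ ([c] ++ (U ++ (z k' :: dbl (D k'))))))) ++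
      (e ++ (dbl D0' ++ (U' ++ (z' l' :: (dbl (D' l') ++ c :: q))))))
      ((p ++ (dbl D0 ++ ([c] ++ ([c] ++ (U ++ (z k' :: dbl (D k'))))))) ++
      (dbl D0' ++ (ee ++ (U' ++ (z' l' :: (dbl (D' l') ++ c :: q)))))) := by
    cases b with
    | false =>
      simp only [he, hee, Bool.false_eq_true, if_false, List.nil_append]
      exact RR.refl _
    | true =>
      simp only [he, hee, if_true]
      have a1 := (cswap h hddc hc2 D0' (U' ++ (z' l' :: (dbl (D' l') ++ c :: q)))).symm
      have a2 := dblc h (A := (p ++ (dbl D0 ++ ([c] ++ ([c] ++ (U ++ (z k' :: dbl (D k'))))))) ++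
        dbl D0') (List.mem_append_left _ hc2) (U' ++ (z' l' :: (dbl (D' l') ++ c :: q)))
      rw [List.append_assoc, List.append_assoc (p ++ _) (dbl D0')] at a2
      exact β.trans a1 a2
  -- step 3
  have s3 := cswap h hddc (A := (p ++ (dbl D0 ++ ([c] ++ ([c] ++ (U ++ (z k' :: dbl (D k'))))))) ++
      (dbl D0' ++ (ee ++ (U' ++ [z' l'])))) (List.mem_append_left _ hc2) (D' l') q
  -- step 4
  have hUU : RR β U U2 := by
    apply fm_congr
    intro i _
    have := (hddc β h (D i) [] [z i] []).2.1
    simpa using this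
  have hUU' : RR β U' U2' := by
    apply fm_congr
    intro i _
    have := (hddc β h (D' i) [] [z' i] []).2.1
    simpa using this
  have hM : RR β (z k' :: (dbl (D k') ++ dbl D0'))
      ([z k'] ++ (dbl (D k' ++ D0') ++ dbl (D k' ++ D0'))) := by
    have := (hddc β h (D k' ++ D0') [] [z k'] []).2.1
    rw [← dbl_app]
    simpa using this
  have s4 := (RR.refl (β := β) (p ++ dbl D0 ++ [c, c])).append (hUU.append (hM.append
    ((RR.refl (β := β) ee).append (hUU'.append
      (RR.refl (β := β) (z' l' :: c :: (dbl (D' l') ++ q)))))))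
  -- step 5
  have h5 : (p ++ dbl D0) ++ (ws [c] (dbl (D' l')) S (fun i => [zf (k' + 1) z z' i])
      (cf k' D D' D0') (fun i => decide (b = true ∧ i = k')) τ (k' + 1 + l') ++ R) =
      p ++ dbl D0 ++ [c, c] ++ (U2 ++ (([z k'] ++ (dbl (D k' ++ D0') ++ dbl (D k' ++ D0'))) ++
        (ee ++ (U2' ++ (z' l' :: c :: (dbl (D' l') ++ q)))))) := by
    have hz : zf (k' + 1) z z' (k' + 1 + l') = z' l' := by
      unfold zf
      rw [if_neg (by omega)]
      congr 1
      omega
    unfold ws
    rw [bs_eq]
    simp only [hz, hq, List.append_assoc, List.cons_append, List.nil_append, hU2, hU2', hee]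
  rw [h5]
  refine (?_ : RR β _ _)
  have t1 : RR β (p ++ ([c] ++ ([c] ++ (dbl D0 ++ (U ++ (z k' :: (dbl (D k') ++ (e ++ (dbl D0' ++
        (U' ++ (z' l' :: (dbl (D' l') ++ c :: q)))))))))))) ((p ++ (dbl D0 ++ ([c] ++ ([c] ++ (U ++ (z k' :: dbl (D k'))))))) ++
      (e ++ (dbl D0' ++ (U' ++ (z' l' :: (dbl (D' l') ++ c :: q)))))) := by
    simpa only [List.append_assoc, List.cons_append, List.nil_append] using s1
  have t3 : RR β ((p ++ (dbl D0 ++ ([c] ++ ([c] ++ (U ++ (z k' :: dbl (D k'))))))) ++
      (dbl D0' ++ (ee ++ (U' ++ (z' l' :: (dbl (D' l') ++ c :: q))))))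
      (p ++ dbl D0 ++ [c, c] ++ (U ++ (z k' :: (dbl (D k') ++ dbl D0') ++ (ee ++ (U' ++
        (z' l' :: c :: (dbl (D' l') ++ q))))))) := by
    simpa only [List.append_assoc, List.cons_append, List.nil_append] using s3
  exact β.trans t1 (β.trans s2 (β.trans t3 s4))

theorem fsf (hfsp : MWGN.FspStmt) (htex : TexStmt) (hddc : DdcStmt) : FsfStmt := by
  intro β h hF Q p v v' q c hnd hmem
  obtain ⟨k, D0, z, D, h1, h2⟩ := dec Q v
  obtain ⟨l, D0', z', D', h1', h2'⟩ := dec Q v'
  rw [h1, h1']
  rcases Nat.eq_zero_or_pos k with hk | hk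
  · -- no light in `v`
    subst hk
    simp only [List.range_zero, List.flatMap_nil, List.append_nil]
    have hc : c ∈ p ++ [c, c] := by simp
    have a1 := cswap h hddc hc D0
      ((dbl D0' ++ (List.range l).flatMap (fun i => z' i :: dbl (D' i))) ++ c :: q)
    have a2 := dblc h (A := p ++ [c]) (c := c) (by simp) (dbl D0 ++
      ((dbl D0' ++ (List.range l).flatMap (fun i => z' i :: dbl (D' i))) ++ c :: q))
    have a1' : RR β (p ++ c :: c :: (dbl D0 ++ c :: ((dbl D0' ++ (List.range l).flatMap
        (fun i => z' i :: dbl (D' i))) ++ c :: q)))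
        (p ++ c :: c :: c :: (dbl D0 ++ ((dbl D0' ++ (List.range l).flatMap
        (fun i => z' i :: dbl (D' i))) ++ c :: q))) := by
      simpa only [List.append_assoc, List.cons_append, List.nil_append] using a1
    have a2' : RR β (p ++ c :: c :: (dbl D0 ++ ((dbl D0' ++ (List.range l).flatMap
        (fun i => z' i :: dbl (D' i))) ++ c :: q)))
        (p ++ c :: c :: c :: (dbl D0 ++ ((dbl D0' ++ (List.range l).flatMap
        (fun i => z' i :: dbl (D' i))) ++ c :: q))) := by
      simpa only [List.append_assoc, List.cons_append, List.nil_append] using a2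
    exact β.trans a2' a1'.symm
  · rcases Nat.eq_zero_or_pos l with hl | hl
    · -- no light in `v'`
      subst hl
      simp only [List.range_zero, List.flatMap_nil, List.append_nil]
      have hc : c ∈ p ++ c :: c :: (dbl D0 ++ (List.range k).flatMap (fun i => z i :: dbl (D i))) := by
        simp
      have a1 := cswap h hddc hc D0' q
      have a2 := cswap h hddc (A := (p ++ c :: c :: (dbl D0 ++ (List.range k).flatMap
        (fun i => z i :: dbl (D i)))) ++ [c]) (List.mem_append_left _ hc) D0' q
      have a3 := dblc h hc (dbl D0' ++ q)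
      have a2' : RR β ((p ++ c :: c :: (dbl D0 ++ (List.range k).flatMap
        (fun i => z i :: dbl (D i)))) ++ c :: (dbl D0' ++ c :: q)) ((p ++ c :: c :: (dbl D0 ++ (List.range k).flatMap
        (fun i => z i :: dbl (D i)))) ++ c :: c :: (dbl D0' ++ q)) := by
        simpa only [List.append_assoc, List.cons_append, List.nil_append] using a2
      have a4 := β.trans a1 (β.trans a3 a2'.symm)
      have a5 : RR β ((p ++ c :: c :: (dbl D0 ++ (List.range k).flatMap
        (fun i => z i :: dbl (D i)))) ++ (dbl D0' ++ c :: q)) ((p ++ c :: c :: (dbl D0 ++ (List.range k).flatMap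
        (fun i => z i :: dbl (D i)))) ++ c :: (dbl D0' ++ c :: q)) := a4
      simpa only [List.append_assoc, List.cons_append, List.nil_append] using a5
    · obtain ⟨k', rfl⟩ : ∃ k', k = k' + 1 := ⟨k - 1, by omega⟩
      obtain ⟨l', rfl⟩ : ∃ l', l = l' + 1 := ⟨l - 1, by omega⟩
      have hfil : (v ++ v').filter Q = (List.range (k' + 1 + (l' + 1))).map (zf (k' + 1) z z') := by
        rw [List.filter_append, h2, h2', List.range_add (n := k' + 1) (m := l' + 1), List.map_append,
          List.map_map]
        congr 1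
        · apply List.map_congr_left
          intro i hi
          have := List.mem_range.1 hi
          unfold zf
          rw [if_pos this]
        · apply List.map_congr_left
          intro i hi
          show z' i = zf (k' + 1) z z' (k' + 1 + i)
          unfold zf
          rw [if_neg (by omega)]
          congr 1
          omega
      have hinj : ∀ i ≤ k' + 1 + l', ∀ j ≤ k' + 1 + l',
          zf (k' + 1) z z' i = zf (k' + 1) z z' j → i = j := by
        intro i hi j hj hij
        rw [hfil] at hnd
        exact List.inj_on_of_nodup_map hnd (List.mem_range.2 (by omega))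
          (List.mem_range.2 (by omega)) hij
      have hzq : ∀ i ≤ k' + 1 + l', zf (k' + 1) z z' i ∈ q := by
        intro i hi
        have h6 : zf (k' + 1) z z' i ∈ (v ++ v').filter Q := by
          rw [hfil]
          exact List.mem_map_of_mem (List.mem_range.2 (by omega))
        exact hmem _ (List.mem_filter.1 h6).1 (List.mem_filter.1 h6).2
      obtain ⟨τ, S, R, hτ, hq⟩ := htex (k' + 1 + l') (zf (k' + 1) z z') q hinj hzq
      have n0 := nform h hddc p q D0 D0' c k' l' z z' D D' τ S R hq false
      have n1 := nform h hddc p q D0 D0' c k' l' z z' D D' τ S R hq true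
      have f0 : (fun i : ℕ => decide (false = true ∧ i = k')) = fun _ => false := by
        funext i
        simp
      rw [f0] at n0
      have g0 := hF (k' + 1 + l') τ hτ [c] (dbl (D' l')) S (fun i => [zf (k' + 1) z z' i])
        (cf k' D D' D0')
      have g1 := hfsp β h (k' + 1 + l') (fun n _ τ hτ => hF n τ hτ) τ hτ
        (fun i : ℕ => decide (true = true ∧ i = k')) ⟨k', by omega, by simp⟩ [c] (dbl (D' l')) S
        (fun i => [zf (k' + 1) z z' i]) (cf k' D D' D0')
      have g2 : RR β _ _ := β.trans g0 g1.symm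
      have g3 := (RR.refl (β := β) (p ++ dbl D0)).append (g2.append (RR.refl (β := β) R))
      have g4 : RR β _ _ := β.trans n0 (β.trans g3 n1.symm)
      simpa only [Bool.false_eq_true, if_false, if_true, List.nil_append, List.cons_append] using g4

end Pool.Agent.MWLE.H46
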